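import Pool.Agent.H739K.SWF
import Pool.Agent.H739K.F0

/-!
Two independent uniform `n`-step self-avoiding walks on the square lattice: the non-intersection
probabilities `P_n` satisfy `|P_{n+2}/P_n - 1| ≤ K ((log n)^9 / n)^(1/2)`.
-/

set_option linter.unusedSectionVars false

namespace Pool.Agent.Results.MP_8c6f77_pr.ConsecutiveRatio

/-- `ω` is a self-avoiding walk with `n` steps on `ℤ²`, started at the origin. -/
def IsSAW (n : ℕ) (ω : Fin (n + 1) → ℤ × ℤ) : Prop :=
  ω 0 = (0, 0) ∧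
  (∀ i : Fin n, |(ω i.succ).1 - (ω i.castSucc).1| + |(ω i.succ).2 - (ω i.castSucc).2| = 1) ∧
  Function.Injective ω

/-- `P_n[w{1,…,n} ∩ w'{0,…,n} = ∅]` for two independent uniform `n`-step self-avoiding walks
`w, w'` from the origin of `ℤ²`. -/
noncomputable def P (n : ℕ) : ℝ :=
  ({p : (Fin (n + 1) → ℤ × ℤ) × (Fin (n + 1) → ℤ × ℤ) | IsSAW n p.1 ∧ IsSAW n p.2 ∧
    ∀ i j, i ≠ 0 → p.1 i ≠ p.2 j}.ncard : ℝ) / ({w | IsSAW n w}.ncard : ℝ) ^ 2

open Pool.Agent.H739K Pool.Agent.H976R2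

noncomputable def a (n : ℕ) : ℝ := ((SW n).card : ℝ)

lemma ncard_eq (n : ℕ) : ({w | IsSAW n w}.ncard : ℝ) = a n := by
  have h1 : ({w | IsSAW n w}.ncard : ℕ) = H981.C n := rfl
  rw [a, SWR.card_eq_cr', H981.cr'_eq, h1]

lemma a_pos (n : ℕ) : 0 < a n := SWF.card_pos n

lemma fin_saw (n : ℕ) : {w | IsSAW n w}.Finite := by
  apply Set.finite_of_ncard_pos
  have h := a_pos n
  rw [← ncard_eq] at h
  exact_mod_cast h

/-- pairs of disjoint walks -/
def DP (n : ℕ) : Set ((Fin (n + 1) → ℤ × ℤ) × (Fin (n + 1) → ℤ × ℤ)) :=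
  {p | IsSAW n p.1 ∧ IsSAW n p.2 ∧ ∀ i j, i ≠ 0 → p.1 i ≠ p.2 j}

lemma fin_DP (n : ℕ) : (DP n).Finite :=
  ((fin_saw n).prod (fin_saw n)).subset fun _ hp => ⟨hp.1, hp.2.1⟩

theorem two_mul_le (n : ℕ) :
    {w | IsSAW (2 * n) w}.ncard ≤ (DP n).ncard := by
  refine Set.ncard_le_ncard_of_injOn (fun f : Fin (2 * n + 1) → ℤ × ℤ =>
    ((fun i : Fin (n + 1) => f ⟨n - i, by omega⟩ - f ⟨n, by omega⟩),
     (fun j : Fin (n + 1) => f ⟨n + j, by omega⟩ - f ⟨n, by omega⟩))) ?_ ?_ (fin_DP n)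
  · intro f hf
    obtain ⟨h0, h2, h1⟩ := hf
    refine ⟨⟨?_, ?_, ?_⟩, ⟨?_, ?_, ?_⟩, ?_⟩
    · simp; rfl
    · intro i
      simp only [Fin.val_succ, Fin.val_castSucc]
      have := h2 ⟨n - (i + 1), by omega⟩
      have e1 : (Fin.succ ⟨n - (i + 1), by omega⟩ : Fin (2 * n + 1)) = ⟨n - i, by omega⟩ := by
        ext; simp; omega
      have e2 : (Fin.castSucc ⟨n - (i + 1), by omega⟩ : Fin (2 * n + 1)) =
          ⟨n - (i + 1), by omega⟩ := by
        ext; simp
      rw [e1, e2] at this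
      simp only [Prod.fst_sub, Prod.snd_sub, sub_sub_sub_cancel_right]
      rw [abs_sub_comm, abs_sub_comm (f _).2]
      exact this
    · intro i j hij
      have := h1 (sub_left_inj.mp hij)
      simp only [Fin.mk.injEq] at this
      ext
      omega
    · simp; rfl
    · intro i
      simp only [Fin.val_succ, Fin.val_castSucc]
      have := h2 ⟨n + i, by omega⟩
      have e1 : (Fin.succ ⟨n + i, by omega⟩ : Fin (2 * n + 1)) = ⟨n + (i + 1), by omega⟩ := by
        ext; simp; omega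
      have e2 : (Fin.castSucc ⟨n + i, by omega⟩ : Fin (2 * n + 1)) = ⟨n + i, by omega⟩ := by
        ext; simp
      rw [e1, e2] at this
      simp only [Prod.fst_sub, Prod.snd_sub, sub_sub_sub_cancel_right]
      exact this
    · intro i j hij
      have := h1 (sub_left_inj.mp hij)
      simp only [Fin.mk.injEq] at this
      ext
      omega
    · intro i j hi hij
      have := h1 (sub_left_inj.mp hij)
      simp only [Fin.mk.injEq] at this
      apply hi
      ext
      simp only [Fin.val_zero]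
      omega
  · intro f hf g hg h
    simp only [Prod.mk.injEq] at h
    obtain ⟨g1, g2⟩ := h
    have z : f ⟨n, by omega⟩ = g ⟨n, by omega⟩ := by
      have e := congrFun g1 ⟨n, by omega⟩
      simp only [Nat.sub_self] at e
      have e1 : f ⟨0, by omega⟩ = (0, 0) := hf.1
      have e2 : g ⟨0, by omega⟩ = (0, 0) := hg.1
      rw [e1, e2] at e
      exact sub_right_inj.mp e
    funext k
    by_cases hk : (k : ℕ) ≤ n
    · have e := congrFun g1 ⟨n - k, by omega⟩
      simp only at e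
      have e1 : (⟨n - (n - k), by omega⟩ : Fin (2 * n + 1)) = k := by ext; simp; omega
      rw [e1, z] at e
      exact sub_left_inj.mp e
    · have e := congrFun g2 ⟨k - n, by omega⟩
      simp only at e
      have e1 : (⟨n + (k - n), by omega⟩ : Fin (2 * n + 1)) = k := by ext; simp; omega
      rw [e1, z] at e
      exact sub_left_inj.mp e

/-- glue two walks: the first one backwards, then the second one -/
def gl (n : ℕ) (p : (Fin (n + 1) → ℤ × ℤ) × (Fin (n + 1) → ℤ × ℤ)) : Fin (2 * n + 1) → ℤ × ℤ :=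
  fun k => if h : (k : ℕ) ≤ n then p.1 ⟨n - k, by omega⟩ - p.1 ⟨n, by omega⟩
    else p.2 ⟨k - n, by omega⟩ - p.1 ⟨n, by omega⟩

lemma gl_lo {n : ℕ} (p : (Fin (n + 1) → ℤ × ℤ) × (Fin (n + 1) → ℤ × ℤ)) (k : Fin (2 * n + 1))
    (h : (k : ℕ) ≤ n) : gl n p k = p.1 ⟨n - k, by omega⟩ - p.1 ⟨n, by omega⟩ := by
  unfold gl
  rw [dif_pos h]

lemma gl_hi {n : ℕ} (p : (Fin (n + 1) → ℤ × ℤ) × (Fin (n + 1) → ℤ × ℤ)) (hp : p ∈ DP n)
    (k : Fin (2 * n + 1)) (h : n ≤ (k : ℕ)) :
    gl n p k = p.2 ⟨k - n, by omega⟩ - p.1 ⟨n, by omega⟩ := by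
  unfold gl
  split_ifs with h'
  · have e : (k : ℕ) = n := le_antisymm h' h
    have e1 : (⟨n - k, by omega⟩ : Fin (n + 1)) = 0 := by ext; simp; omega
    have e2 : (⟨k - n, by omega⟩ : Fin (n + 1)) = 0 := by ext; simp; omega
    rw [e1, e2, hp.1.1, hp.2.1.1]
  · rfl

theorem le_two_mul (n : ℕ) :
    (DP n).ncard ≤ {w | IsSAW (2 * n) w}.ncard := by
  refine Set.ncard_le_ncard_of_injOn (gl n) ?_ ?_ (fin_saw _)
  · intro p hp
    obtain ⟨⟨u0, u1, u2⟩, ⟨v0, v1, v2⟩, h3⟩ := id hp
    refine ⟨?_, ?_, ?_⟩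
    · rw [gl_lo p 0 (by simp)]
      have e : (⟨n - ((0 : Fin (2 * n + 1)) : ℕ), by omega⟩ : Fin (n + 1)) = ⟨n, by omega⟩ := by
        ext; simp
      rw [e, sub_self]; rfl
    · intro i
      rcases Nat.lt_or_ge (i : ℕ) n with h | h
      · rw [gl_lo p i.succ (by simp; omega), gl_lo p i.castSucc (by simp; omega)]
        simp only [Prod.fst_sub, Prod.snd_sub, sub_sub_sub_cancel_right]
        have := u1 ⟨n - (i + 1), by omega⟩
        have e1 : (Fin.succ ⟨n - (i + 1), by omega⟩ : Fin (n + 1)) =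
            ⟨n - ((i.castSucc : Fin (2 * n + 1)) : ℕ), by omega⟩ := by
          ext; simp; omega
        have e2 : (Fin.castSucc ⟨n - (i + 1), by omega⟩ : Fin (n + 1)) =
            ⟨n - ((i.succ : Fin (2 * n + 1)) : ℕ), by omega⟩ := by
          ext; simp
        rw [e1, e2] at this
        rw [abs_sub_comm, abs_sub_comm (p.1 _).2]
        exact this
      · rw [gl_hi p hp i.succ (by simp; omega), gl_hi p hp i.castSucc (by simp; omega)]
        simp only [Prod.fst_sub, Prod.snd_sub, sub_sub_sub_cancel_right]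
        have := v1 ⟨i - n, by omega⟩
        have e1 : (Fin.succ ⟨i - n, by omega⟩ : Fin (n + 1)) =
            ⟨((i.succ : Fin (2 * n + 1)) : ℕ) - n, by simp; omega⟩ := by
          ext; simp; omega
        have e2 : (Fin.castSucc ⟨i - n, by omega⟩ : Fin (n + 1)) =
            ⟨((i.castSucc : Fin (2 * n + 1)) : ℕ) - n, by simp; omega⟩ := by
          ext; simp
        rw [e1, e2] at this
        exact this
    · intro i j hij
      rcases le_or_gt (i : ℕ) n with h | h <;> rcases le_or_gt (j : ℕ) n with h' | h'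
      · rw [gl_lo p i h, gl_lo p j h'] at hij
        have := u2 (sub_left_inj.mp hij)
        simp only [Fin.mk.injEq] at this
        ext; omega
      · rw [gl_lo p i h, gl_hi p hp j h'.le] at hij
        have e := sub_left_inj.mp hij
        by_cases hi : (⟨n - (i : ℕ), by omega⟩ : Fin (n + 1)) = 0
        · rw [hi, u0, ← v0] at e
          have := v2 e
          have h4 := congrArg Fin.val this
          simp at h4
          omega
        · exact absurd e (h3 _ _ hi)
      · rw [gl_hi p hp i h.le, gl_lo p j h'] at hij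
        have e := (sub_left_inj.mp hij).symm
        by_cases hi : (⟨n - (j : ℕ), by omega⟩ : Fin (n + 1)) = 0
        · rw [hi, u0, ← v0] at e
          have := v2 e
          have h4 := congrArg Fin.val this
          simp at h4
          omega
        · exact absurd e (h3 _ _ hi)
      · rw [gl_hi p hp i h.le, gl_hi p hp j h'.le] at hij
        have := v2 (sub_left_inj.mp hij)
        simp only [Fin.mk.injEq] at this
        ext; omega
  · intro p hp q hq h
    have hz : p.1 ⟨n, by omega⟩ = q.1 ⟨n, by omega⟩ := by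
      have e := congrFun h ⟨n, by omega⟩
      rw [gl_lo p _ le_rfl, gl_lo q _ le_rfl] at e
      have e1 : (⟨n - n, by omega⟩ : Fin (n + 1)) = 0 := by ext; simp
      simp only [e1] at e
      rw [hp.1.1, hq.1.1] at e
      exact sub_right_inj.mp e
    refine Prod.ext (funext fun k => ?_) (funext fun k => ?_)
    · have e := congrFun h ⟨n - k, by omega⟩
      rw [gl_lo p _ (by simp), gl_lo q _ (by simp)] at e
      have e1 : (⟨n - (n - k), by omega⟩ : Fin (n + 1)) = k := by ext; simp; omega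
      simp only [e1, hz] at e
      exact sub_left_inj.mp e
    · have e := congrFun h ⟨n + k, by omega⟩
      rw [gl_hi p hp _ (by simp), gl_hi q hq _ (by simp)] at e
      have e1 : (⟨n + k - n, by omega⟩ : Fin (n + 1)) = k := by ext; simp
      simp only [e1, hz] at e
      exact sub_left_inj.mp e

lemma P_eq (n : ℕ) : P n = a (2 * n) / a n ^ 2 := by
  have h : ((DP n).ncard : ℝ) = a (2 * n) := by
    rw [← ncard_eq]
    exact_mod_cast le_antisymm (le_two_mul n) (two_mul_le n)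
  unfold P
  rw [ncard_eq, ← h]
  rfl

/-- the rate between `n` and `2 n + 2` is at most a constant times the rate at `n` -/
lemma rt_le {n m : ℕ} (hn : 2 ≤ n) (h1 : n ≤ m) (h2 : m ≤ 2 * n + 2) :
    rt m ≤ 141 * rt n := by
  have hn' : (2 : ℝ) ≤ n := by exact_mod_cast hn
  have h1' : (n : ℝ) ≤ m := by exact_mod_cast h1
  have h2' : (m : ℝ) ≤ 2 * n + 2 := by exact_mod_cast h2
  have hl : 0 < Real.log n := Real.log_pos (by linarith)
  have hlm : Real.log m ≤ 2 * Real.log n + Real.log 2 := by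
    have : (m : ℝ) ≤ 2 * (n : ℝ) ^ 2 := by nlinarith
    calc Real.log m ≤ Real.log (2 * (n : ℝ) ^ 2) := Real.log_le_log (by linarith) this
      _ = _ := by
        rw [Real.log_mul (by norm_num) (by positivity), Real.log_pow]
        push_cast; ring
  have hl2 : Real.log 2 ≤ Real.log n := Real.log_le_log (by norm_num) hn'
  have hm3 : Real.log m ≤ 3 * Real.log n := by linarith
  have hm0 : 0 ≤ Real.log m := Real.log_nonneg (by linarith)
  unfold rt
  rw [show (141 : ℝ) = Real.sqrt (141 ^ 2) by rw [Real.sqrt_sq]; norm_num,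
    ← Real.sqrt_mul (by norm_num)]
  apply Real.sqrt_le_sqrt
  calc Real.log m ^ 9 / m ≤ (3 * Real.log n) ^ 9 / n := by gcongr
    _ = 19683 * (Real.log n ^ 9 / n) := by ring
    _ ≤ 141 ^ 2 * (Real.log n ^ 9 / n) := by
      have : 0 ≤ Real.log n ^ 9 / n := by positivity
      nlinarith

lemma rt_tendsto : Filter.Tendsto rt Filter.atTop (nhds 0) := F0_rt_tendsto

lemma all_of_ev {f : ℕ → ℝ} {C : ℝ} {N : ℕ} (h : ∀ n, 2 ≤ n → N ≤ n → f n ≤ C * rt n) :
    ∃ K : ℝ, ∀ n, 2 ≤ n → f n ≤ K * rt n := by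
  refine ⟨|C| + ∑ k ∈ Finset.range N, |f k| / rt k, fun n hn => ?_⟩
  have hr := SWF.rt_pos hn
  have hs : 0 ≤ ∑ k ∈ Finset.range N, |f k| / rt k :=
    Finset.sum_nonneg fun k _ => div_nonneg (abs_nonneg _) (SWF.rt_nonneg k)
  rcases Nat.lt_or_ge n N with h' | h'
  · have h1 : |f n| / rt n ≤ ∑ k ∈ Finset.range N, |f k| / rt k :=
      Finset.single_le_sum (f := fun k => |f k| / rt k)
        (fun k _ => div_nonneg (abs_nonneg _) (SWF.rt_nonneg k)) (Finset.mem_range.mpr h')
    calc f n ≤ |f n| := le_abs_self _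
      _ = |f n| / rt n * rt n := by field_simp
      _ ≤ (|C| + ∑ k ∈ Finset.range N, |f k| / rt k) * rt n := by
        apply mul_le_mul_of_nonneg_right _ hr.le
        linarith [abs_nonneg C]
  · refine (h n hn h').trans (mul_le_mul_of_nonneg_right ?_ hr.le)
    linarith [le_abs_self C]

/-- normalised ratio -/
noncomputable def q (n : ℕ) : ℝ := a (n + 2) / (H981.mu ^ 2 * a n)

lemma q_close : ∃ K : ℝ, 0 ≤ K ∧ ∀ n : ℕ, 2 ≤ n → |q n - 1| ≤ K * rt n := by
  obtain ⟨K, hK⟩ := SWF.count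
  have hmu : 0 < H981.mu := H981.mu_pos
  refine ⟨|K| / H981.mu ^ 2, by positivity, fun n hn => ?_⟩
  have ha := a_pos n
  have e : q n - 1 = (a (n + 2) / a n - H981.mu ^ 2) / H981.mu ^ 2 := by
    unfold q
    field_simp
  rw [e, abs_div, abs_of_pos (show 0 < H981.mu ^ 2 by positivity), div_mul_eq_mul_div]
  refine div_le_div_of_nonneg_right ((hK n hn).trans ?_) (by positivity)
  exact mul_le_mul_of_nonneg_right (le_abs_self K) (SWF.rt_nonneg n)

lemma P_ratio (n : ℕ) : P (n + 2) / P n = q (2 * n + 2) * q (2 * n) / q n ^ 2 := by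
  have hmu : 0 < H981.mu := H981.mu_pos
  have h1 := a_pos n
  have h2 := a_pos (n + 2)
  have h3 := a_pos (2 * n)
  have h4 := a_pos (2 * n + 2)
  rw [P_eq, P_eq]
  unfold q
  rw [show 2 * (n + 2) = 2 * n + 2 + 2 by ring]
  field_simp

/-- **Theorem.** There is `K` such that the probabilities `P_n` that two independent uniform
`n`-step self-avoiding walks from the origin of `ℤ²` are disjoint except for their common starting
point satisfy `|P_{n+2}/P_n - 1| ≤ K ((log n)^9 / n)^(1/2)` for all `n ≥ 2`. -/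
theorem result : ∃ K : ℝ, ∀ n : ℕ, 2 ≤ n →
    |P (n + 2) / P n - 1| ≤ K * Real.sqrt (Real.log n ^ 9 / n) := by
  obtain ⟨K, hK0, hK⟩ := q_close
  have hev : ∀ᶠ n in Filter.atTop, K * 141 * rt n ≤ 1 / 2 := by
    have h := rt_tendsto.const_mul (K * 141)
    rw [mul_zero] at h
    exact (h.eventually (gt_mem_nhds (show (0 : ℝ) < 1 / 2 by norm_num))).mono fun _ h => le_of_lt h
  obtain ⟨N, hN⟩ := Filter.eventually_atTop.mp hev
  refine all_of_ev (C := 20 * (K * 141)) (N := N) (fun n hn h' => ?_)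
  have hs := hN n h'
  have hr := SWF.rt_nonneg n
  set ε := K * 141 * rt n with hε
  have hε0 : 0 ≤ ε := by positivity
  have b : ∀ m, n ≤ m → m ≤ 2 * n + 2 → |q m - 1| ≤ ε := fun m h1 h2 =>
    (hK m (hn.trans h1)).trans (by
      rw [hε, mul_assoc]
      exact mul_le_mul_of_nonneg_left (rt_le hn h1 h2) hK0)
  have b1 := abs_le.mp (b n le_rfl (by omega))
  have b2 := abs_le.mp (b (2 * n) (by omega) (by omega))
  have b3 := abs_le.mp (b (2 * n + 2) (by omega) (by omega))
  rw [P_ratio]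
  set x := q (2 * n + 2)
  set y := q (2 * n)
  set z := q n
  have hz : 1 / 2 ≤ z := by linarith [b1.1]
  have hz2 : 1 / 4 ≤ z ^ 2 := by nlinarith
  have hxy : |x * y - z ^ 2| ≤ 5 * ε := by
    rw [abs_le]
    constructor <;> nlinarith [b1.1, b1.2, b2.1, b2.2, b3.1, b3.2, mul_nonneg hε0 hε0]
  rw [show x * y / z ^ 2 - 1 = (x * y - z ^ 2) / z ^ 2 by field_simp, abs_div,
    abs_of_pos (show 0 < z ^ 2 by positivity), div_le_iff₀ (by positivity)]
  calc |x * y - z ^ 2| ≤ 5 * ε := hxy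
    _ ≤ 20 * (K * 141) * rt n * z ^ 2 := by
      have : 20 * (K * 141) * rt n = 20 * ε := by rw [hε]; ring
      rw [this]
      nlinarith

end Pool.Agent.Results.MP_8c6f77_pr.ConsecutiveRatio
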