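import Pool.Agent.H978R2.Hex.Rn

set_option autoImplicit false

/-!
Two independent self-avoiding walks on the honeycomb lattice: the probability that they only meet at
their starting point is at most a negative power of the length, for infinitely many lengths.
-/

namespace Pool.Agent.Results.MP_8c6f77_pr.HoneycombDisjoint

open Filter Topology

/-- adjacency of the honeycomb lattice in brick-wall coordinates -/
def Adj (p q : ℤ × ℤ) : Prop :=
  q - p = (1, 0) ∨ q - p = (-1, 0) ∨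
  (q - p = (0, 1) ∧ Even (p.1 + p.2)) ∨
  (q - p = (0, -1) ∧ Even (q.1 + q.2))

/-- self-avoiding paths of length `n` started at the vertex `0` -/
def Om (n : ℕ) : Set (Fin (n + 1) → ℤ × ℤ) :=
  {w | w 0 = 0 ∧ Function.Injective w ∧ ∀ i : Fin n, Adj (w i.castSucc) (w i.succ)}

/-- `P_n[w{1,…,n} ∩ w'{0,…,n} = ∅]` for `w, w'` independent and uniform on `Om n` -/
noncomputable def Pn (n : ℕ) : ℝ :=
  (Set.ncard {p : (Fin (n + 1) → ℤ × ℤ) × (Fin (n + 1) → ℤ × ℤ) |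
    p.1 ∈ Om n ∧ p.2 ∈ Om n ∧ ∀ i j : Fin (n + 1), i ≠ 0 → p.1 i ≠ p.2 j} : ℝ) /
  (Set.ncard (Om n) : ℝ) ^ 2

/-- **Theorem.** On the honeycomb lattice:
(i) `∑_{j ≥ 0} 2^{-(j+1)} log (1/P_{2^j n}) ≥ (log n)/1000 - 1/99` for every `n ≥ 1`
(the series of nonnegative terms converges);
(ii) for every `δ < 1/1000` and every large `n` there is `j` with `P_{2^j n} ≤ (2^j n)^{-δ}`;
(iii) if `log P_n / log n` converges, then its limit is at most `-1/1000`. -/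
theorem result :
    (∀ n : ℕ, 1 ≤ n → ∃ S : ℝ,
      HasSum (fun j : ℕ => (1 / 2 : ℝ) ^ (j + 1) * Real.log (1 / Pn (2 ^ j * n))) S ∧
      1 / 1000 * Real.log n - 1 / 99 ≤ S) ∧
    (∀ δ : ℝ, δ < 1 / 1000 → ∃ N : ℕ, ∀ n : ℕ, N ≤ n → ∃ j : ℕ,
      Pn (2 ^ j * n) ≤ ((2 ^ j * n : ℕ) : ℝ) ^ (-δ)) ∧
    (∀ α : ℝ, Tendsto (fun n : ℕ => Real.log (Pn n) / Real.log n) atTop (𝓝 α) →
      α ≤ -(1 / 1000)) :=
  ⟨fun n hn => ⟨H978R2.Hex.Rn n, H978R2.Hex.hasSum_Pd n hn, H978R2.Hex.Rn_lower n hn⟩,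
    H978R2.Hex.exists_small, H978R2.Hex.exponent⟩

end Pool.Agent.Results.MP_8c6f77_pr.HoneycombDisjoint
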