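import Pool.Agent.H982R3.Walk3

/-!
Two independent uniform `n`-step self-avoiding walks from the origin on the square, triangular or
hexagonal lattice are disjoint (apart from their common starting point) with probability at least
`exp(-K (log n)^9)`.
-/

set_option linter.unusedSectionVars false

namespace Pool.Agent.Results.MP_8c6f77_pr.ThreeLatticesDisjoint

open H982 H982P

/-- The three regular planar lattices. -/
inductive Lattice
  | square
  | triangular
  | hexagonal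

/-- The second basis vector of the lattice (the first one is `1`): `i` for the square lattice,
`e^{iπ/3}` for the triangular and the hexagonal lattice. -/
noncomputable def basis : Lattice → ℂ
  | .square => Complex.I
  | .triangular => ⟨1 / 2, √3 / 2⟩
  | .hexagonal => ⟨1 / 2, √3 / 2⟩

/-- The sites, as points of the plane. The hexagonal lattice is the triangular lattice
`{a + b e^{iπ/3}}` without the centres `a - b ≡ 2 (mod 3)` of the hexagons. -/
def sites (L : Lattice) : Set ℂ :=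
  {z | ∃ a b : ℤ, z = a + b * basis L ∧ (L = .hexagonal → (a - b) % 3 ≠ 2)}

/-- `ω` is an `n`-step self-avoiding walk from the origin on the lattice `L`: its points are
pairwise distinct sites and consecutive points have distance `1`. -/
def IsSAW (L : Lattice) (n : ℕ) (ω : Fin (n + 1) → ℂ) : Prop :=
  ω 0 = 0 ∧ (∀ i, ω i ∈ sites L) ∧ (∀ i : Fin n, ‖ω i.succ - ω i.castSucc‖ = 1) ∧
    Function.Injective ω

/-- `P_n[w{1,…,n} ∩ w'{0,…,n} = ∅]` for two independent uniform `n`-step self-avoiding walks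
`w, w'` from the origin. -/
noncomputable def P (L : Lattice) (n : ℕ) : ℝ :=
  ({p : (Fin (n + 1) → ℂ) × (Fin (n + 1) → ℂ) | IsSAW L n p.1 ∧ IsSAW L n p.2 ∧
    ∀ i j, i ≠ 0 → p.1 i ≠ p.2 j}.ncard : ℝ) / ({w | IsSAW L n w}.ncard : ℝ) ^ 2

/-! ### coordinates -/

/-- quadratic form -/
def Q : Lattice → ℤ × ℤ → ℤ
  | .square => Qs
  | .triangular => Qt
  | .hexagonal => Qt

/-- adjacency in coordinates -/
def Ad : Lattice → ℤ × ℤ → ℤ × ℤ → Prop
  | .square => As
  | .triangular => At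
  | .hexagonal => Ah

/-- position -/
noncomputable def ps (L : Lattice) (p : ℤ × ℤ) : ℂ := p.1 + p.2 * basis L

lemma ps_sub (L : Lattice) (p q : ℤ × ℤ) : ps L p - ps L q = ps L (p - q) := by
  unfold ps
  simp only [Prod.fst_sub, Prod.snd_sub]
  push_cast
  ring

lemma norm_ps (L : Lattice) (p : ℤ × ℤ) : ‖ps L p‖ ^ 2 = (Q L p : ℝ) := by
  have h3 : √3 * √3 = (3 : ℝ) := Real.mul_self_sqrt (by norm_num)
  rw [Complex.sq_norm, Complex.normSq_apply]
  unfold ps
  cases L
  · simp only [basis, Q, Qs]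
    simp
    ring
  · simp only [basis, Q, Qt]
    simp
    nlinarith
  · simp only [basis, Q, Qt]
    simp
    nlinarith

lemma Q_pos (L : Lattice) {p : ℤ × ℤ} (h : Q L p ≤ 0) : p = 0 := by
  obtain ⟨a, b⟩ := p
  have key : a ^ 2 ≤ 0 ∧ b ^ 2 ≤ 0 := by
    cases L
    · simp only [Q, Qs] at h
      constructor <;> nlinarith [sq_nonneg a, sq_nonneg b]
    · simp only [Q, Qt] at h
      constructor <;> nlinarith [sq_nonneg (a + 2 * b), sq_nonneg (2 * a + b)]
    · simp only [Q, Qt] at h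
      constructor <;> nlinarith [sq_nonneg (a + 2 * b), sq_nonneg (2 * a + b)]
  have h1 : a = 0 := by
    have := sq_nonneg a
    exact pow_eq_zero_iff (n := 2) (by norm_num) |>.mp (by omega)
  have h2 : b = 0 := by
    have := sq_nonneg b
    exact pow_eq_zero_iff (n := 2) (by norm_num) |>.mp (by omega)
  rw [h1, h2]; rfl

lemma ps_inj (L : Lattice) : Function.Injective (ps L) := by
  intro p q h
  have h1 : ‖ps L (p - q)‖ ^ 2 = 0 := by rw [← ps_sub, h]; simp
  rw [norm_ps] at h1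
  have h2 : Q L (p - q) = 0 := by exact_mod_cast h1
  have h3 := Q_pos L h2.le
  exact sub_eq_zero.mp h3

lemma ps_zero (L : Lattice) : ps L 0 = 0 := by simp [ps]

lemma norm_one_iff (L : Lattice) (p : ℤ × ℤ) : ‖ps L p‖ = 1 ↔ Q L p = 1 := by
  rw [← Int.cast_inj (α := ℝ), ← norm_ps, Int.cast_one]
  constructor
  · intro h; rw [h]; norm_num
  · intro h
    have := norm_nonneg (ps L p)
    nlinarith

/-- the site condition -/
def Ok2 (L : Lattice) (p : ℤ × ℤ) : Prop := L = .hexagonal → (p.1 - p.2) % 3 ≠ 2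

lemma ad_iff (L : Lattice) (p q : ℤ × ℤ) :
    Ok2 L p → Ok2 L q → (Ad L p q ↔ Q L (q - p) = 1) := by
  intro h1 h2
  cases L
  · rfl
  · rfl
  · have := h1 rfl
    have := h2 rfl
    simp only [Ad, Ah, Q]
    tauto

lemma ok_of_ad {L : Lattice} {p q : ℤ × ℤ} (h : Ad L p q) : Ok2 L p ∧ Ok2 L q := by
  cases L
  · exact ⟨fun h => (nomatch h), fun h => (nomatch h)⟩
  · exact ⟨fun h => (nomatch h), fun h => (nomatch h)⟩
  · exact ⟨fun _ => h.2.1, fun _ => h.2.2⟩

lemma ok_walk {L : Lattice} {n : ℕ} {f : Fin (n + 1) → ℤ × ℤ} (hf : f ∈ walks (Ad L) n) (i) :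
    Ok2 L (f i) := by
  obtain ⟨h0, h1, h2⟩ := hf
  induction i using Fin.induction with
  | zero => rw [h0]; intro _; decide
  | succ i _ => exact (ok_of_ad (h2 i)).2

/-- the coordinate walks -/
theorem image_walks (L : Lattice) (n : ℕ) :
    {ω | IsSAW L n ω} = (fun (f : Fin (n + 1) → ℤ × ℤ) i => ps L (f i)) '' walks (Ad L) n := by
  ext ω
  constructor
  · rintro ⟨h0, h1, h2, h3⟩
    choose a b hab hc using h1
    have hω : ∀ i, ω i = ps L (a i, b i) := fun i => hab i
    refine ⟨fun i => (a i, b i), ⟨?_, ?_, ?_⟩, funext fun i => (hω i).symm⟩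
    · apply ps_inj L
      rw [← hω, h0, ps_zero]
    · intro i j hij
      apply h3
      rw [hω, hω]
      exact congrArg _ hij
    · intro i
      have c1 : Ok2 L (a i.castSucc, b i.castSucc) := hc i.castSucc
      have c2 : Ok2 L (a i.succ, b i.succ) := hc i.succ
      rw [ad_iff L _ _ c1 c2, ← norm_one_iff, ← ps_sub, ← hω, ← hω]
      exact h2 i
  · rintro ⟨f, hf, rfl⟩
    have hok := ok_walk hf
    obtain ⟨h0, h1, h2⟩ := hf
    refine ⟨?_, ?_, ?_, ?_⟩
    · simp only
      rw [h0, ps_zero]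
    · intro i
      exact ⟨(f i).1, (f i).2, rfl, hok i⟩
    · intro i
      simp only
      rw [ps_sub, norm_one_iff, ← ad_iff L _ _ (hok _) (hok _)]
      exact h2 i
    · intro i j hij
      exact h1 (ps_inj L hij)

lemma fin_walks (L : Lattice) (n : ℕ) : (walks (Ad L) n).Finite := by
  cases L
  · exact @walks_finite sqL _ _ _ coord2_sq n
  · exact @walks_finite triL _ _ _ coord2_tri n
  · exact @walks_finite hexL _ _ _ coord2_hex n

lemma pos_inj (L : Lattice) (n : ℕ) :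
    Function.Injective (fun (f : Fin (n + 1) → ℤ × ℤ) i => ps L (f i)) := by
  intro f g h
  funext i
  exact ps_inj L (congrFun h i)

theorem ncard_saw (L : Lattice) (n : ℕ) : {ω | IsSAW L n ω}.ncard = (walks (Ad L) n).ncard := by
  rw [image_walks, Set.ncard_image_of_injective _ (pos_inj L n)]

lemma fin_saw (L : Lattice) (n : ℕ) : {ω | IsSAW L n ω}.Finite := by
  rw [image_walks]
  exact (fin_walks L n).image _

/-! ### the number of walks -/

lemma ncard_aux [La : H982.Lat] {Adj : ℤ × ℤ → ℤ × ℤ → Prop} {φ : ℤ × ℤ → ℤ × ℤ}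
    {R : ℕ → ℤ × ℤ → Prop} (H : Coord2 Adj φ R) (n : ℕ) :
    ((walks Adj n).ncard : ℝ) = H982.cr' n := by
  rw [H982.cr'_card, ← (bijOn_hw H n).image_eq, (bijOn_hw H n).injOn.ncard_image]
  rfl

/-- the count is `μ^n` up to a quasi-polynomial factor -/
theorem count (L : Lattice) : ∃ μ K : ℝ, 0 < μ ∧ ∀ n : ℕ, 2 ≤ n →
    μ ^ n ≤ ((walks (Ad L) n).ncard : ℝ) ∧
    ((walks (Ad L) n).ncard : ℝ) ≤ μ ^ n * Real.exp (K * Real.log n ^ 9) := by
  cases L
  · obtain ⟨K, -, hK⟩ := @H982.cr'_upper9 sqL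
    refine ⟨@H982.mu sqL, K, @H982.mu_pos sqL, fun n hn => ?_⟩
    simp only [Ad]
    rw [@ncard_aux sqL _ _ _ coord2_sq n]
    exact ⟨@H982.mu_pow_le sqL n, hK n hn⟩
  · obtain ⟨K, -, hK⟩ := @H982.cr'_upper9 triL
    refine ⟨@H982.mu triL, K, @H982.mu_pos triL, fun n hn => ?_⟩
    simp only [Ad]
    rw [@ncard_aux triL _ _ _ coord2_tri n]
    exact ⟨@H982.mu_pow_le triL n, hK n hn⟩
  · obtain ⟨K, -, hK⟩ := @H982.cr'_upper9 hexL
    refine ⟨@H982.mu hexL, K, @H982.mu_pos hexL, fun n hn => ?_⟩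
    simp only [Ad]
    rw [@ncard_aux hexL _ _ _ coord2_hex n]
    exact ⟨@H982.mu_pow_le hexL n, hK n hn⟩

/-! ### splitting a walk at its middle point -/

/-- move `c` to the origin -/
def tr (c p : ℤ × ℤ) : ℤ × ℤ := if (c.1 - c.2) % 3 = 0 then p - c else c - p

lemma tr_self (c : ℤ × ℤ) : tr c c = 0 := by
  unfold tr
  split_ifs <;> simp

lemma tr_inj (c : ℤ × ℤ) : Function.Injective (tr c) := by
  intro p q h
  unfold tr at h
  split_ifs at h
  · exact sub_left_inj.mp h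
  · exact sub_right_inj.mp h

lemma tr_zero {c d : ℤ × ℤ} (h : tr c 0 = tr d 0) : c = d := by
  obtain ⟨c1, c2⟩ := c
  obtain ⟨d1, d2⟩ := d
  unfold tr at h
  split_ifs at h with h1 h2 h2
  · simpa using h
  · simp only [zero_sub, sub_zero, Prod.neg_mk, Prod.mk.injEq] at h h1 h2
    omega
  · simp only [zero_sub, sub_zero, Prod.neg_mk, Prod.mk.injEq] at h h1 h2
    omega
  · simpa using h

lemma Q_neg (L : Lattice) (p q : ℤ × ℤ) : Q L (p - q) = Q L (q - p) := by
  obtain ⟨p1, p2⟩ := p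
  obtain ⟨q1, q2⟩ := q
  cases L
  · simp only [Q, Qs, Prod.mk_sub_mk]; ring
  · simp only [Q, Qt, Prod.mk_sub_mk]; ring
  · simp only [Q, Qt, Prod.mk_sub_mk]; ring

lemma Q_tr (L : Lattice) (c p q : ℤ × ℤ) : Q L (tr c q - tr c p) = Q L (q - p) := by
  unfold tr
  split_ifs
  · rw [sub_sub_sub_cancel_right]
  · rw [sub_sub_sub_cancel_left, Q_neg]

lemma ok_tr {L : Lattice} {c p : ℤ × ℤ} (hc : Ok2 L c) (hp : Ok2 L p) : Ok2 L (tr c p) := by
  intro hL
  have h1 := hc hL
  have h2 := hp hL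
  obtain ⟨c1, c2⟩ := c
  obtain ⟨p1, p2⟩ := p
  unfold tr
  split_ifs with h <;> simp only [Prod.mk_sub_mk] at * <;> omega

lemma ad_tr {L : Lattice} {c p q : ℤ × ℤ} (hc : Ok2 L c) (h : Ad L p q) :
    Ad L (tr c p) (tr c q) := by
  obtain ⟨h1, h2⟩ := ok_of_ad h
  rw [ad_iff L _ _ (ok_tr hc h1) (ok_tr hc h2), Q_tr, ← ad_iff L _ _ h1 h2]
  exact h

lemma ad_symm {L : Lattice} {p q : ℤ × ℤ} (h : Ad L p q) : Ad L q p := by
  obtain ⟨h1, h2⟩ := ok_of_ad h
  rw [ad_iff L _ _ h2 h1, Q_neg, ← ad_iff L _ _ h1 h2]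
  exact h

/-- the pairs of disjoint walks, in coordinates -/
def DP (L : Lattice) (n : ℕ) : Set ((Fin (n + 1) → ℤ × ℤ) × (Fin (n + 1) → ℤ × ℤ)) :=
  {p | p.1 ∈ walks (Ad L) n ∧ p.2 ∈ walks (Ad L) n ∧ ∀ i j, i ≠ 0 → p.1 i ≠ p.2 j}

lemma fin_DP (L : Lattice) (n : ℕ) : (DP L n).Finite :=
  ((fin_walks L n).prod (fin_walks L n)).subset fun _ hp => ⟨hp.1, hp.2.1⟩

theorem two_mul_le (L : Lattice) (n : ℕ) :
    (walks (Ad L) (2 * n)).ncard ≤ (DP L n).ncard := by
  refine Set.ncard_le_ncard_of_injOn (fun f : Fin (2 * n + 1) → ℤ × ℤ =>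
    ((fun i : Fin (n + 1) => tr (f ⟨n, by omega⟩) (f ⟨n - i, by omega⟩)),
     (fun j : Fin (n + 1) => tr (f ⟨n, by omega⟩) (f ⟨n + j, by omega⟩)))) ?_ ?_ (fin_DP L n)
  · intro f hf
    have hok := ok_walk hf
    obtain ⟨h0, h1, h2⟩ := hf
    refine ⟨⟨?_, ?_, ?_⟩, ⟨?_, ?_, ?_⟩, ?_⟩
    · simp [tr_self]
    · intro i j hij
      have := h1 (tr_inj _ hij)
      simp only [Fin.mk.injEq] at this
      ext
      omega
    · intro i
      simp only [Fin.val_succ, Fin.val_castSucc]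
      refine ad_tr (hok _) ?_
      have := h2 ⟨n - (i + 1), by omega⟩
      have e1 : (Fin.succ ⟨n - (i + 1), by omega⟩ : Fin (2 * n + 1)) = ⟨n - i, by omega⟩ := by
        ext; simp; omega
      have e2 : (Fin.castSucc ⟨n - (i + 1), by omega⟩ : Fin (2 * n + 1)) =
          ⟨n - (i + 1), by omega⟩ := by
        ext; simp
      rw [e1, e2] at this
      exact ad_symm this
    · simp [tr_self]
    · intro i j hij
      have := h1 (tr_inj _ hij)
      simp only [Fin.mk.injEq] at this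
      ext
      omega
    · intro i
      simp only [Fin.val_succ, Fin.val_castSucc]
      refine ad_tr (hok _) ?_
      have := h2 ⟨n + i, by omega⟩
      have e1 : (Fin.succ ⟨n + i, by omega⟩ : Fin (2 * n + 1)) = ⟨n + (i + 1), by omega⟩ := by
        ext; simp; omega
      have e2 : (Fin.castSucc ⟨n + i, by omega⟩ : Fin (2 * n + 1)) = ⟨n + i, by omega⟩ := by
        ext; simp
      rw [e1, e2] at this
      exact this
    · intro i j hi hij
      have := h1 (tr_inj _ hij)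
      simp only [Fin.mk.injEq] at this
      apply hi
      ext
      simp only [Fin.val_zero]
      omega
  · intro f hf g hg h
    simp only [Prod.mk.injEq] at h
    obtain ⟨g1, g2⟩ := h
    have z : f ⟨n, by omega⟩ = g ⟨n, by omega⟩ := by
      have e := congrFun g1 ⟨n, by omega⟩
      simp only [Nat.sub_self] at e
      have e1 : f ⟨0, by omega⟩ = 0 := hf.1
      have e2 : g ⟨0, by omega⟩ = 0 := hg.1
      rw [e1, e2] at e
      exact tr_zero e
    funext k
    by_cases hk : (k : ℕ) ≤ n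
    · have e := congrFun g1 ⟨n - k, by omega⟩
      simp only at e
      have e1 : (⟨n - (n - k), by omega⟩ : Fin (2 * n + 1)) = k := by ext; simp; omega
      rw [e1, z] at e
      exact tr_inj _ e
    · have e := congrFun g2 ⟨k - n, by omega⟩
      simp only at e
      have e1 : (⟨n + (k - n), by omega⟩ : Fin (2 * n + 1)) = k := by ext; simp; omega
      rw [e1, z] at e
      exact tr_inj _ e

lemma DP_le (L : Lattice) (n : ℕ) : (DP L n).ncard ≤
    {p : (Fin (n + 1) → ℂ) × (Fin (n + 1) → ℂ) | IsSAW L n p.1 ∧ IsSAW L n p.2 ∧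
      ∀ i j, i ≠ 0 → p.1 i ≠ p.2 j}.ncard := by
  refine Set.ncard_le_ncard_of_injOn
    (fun p => ((fun i => ps L (p.1 i)), (fun i => ps L (p.2 i)))) ?_ ?_
    (((fin_saw L n).prod (fin_saw L n)).subset fun _ hp => ⟨hp.1, hp.2.1⟩)
  · rintro p ⟨h1, h2, h3⟩
    have m : ∀ f ∈ walks (Ad L) n, (fun i => ps L (f i)) ∈ {ω | IsSAW L n ω} := by
      intro f hf
      rw [image_walks]
      exact ⟨f, hf, rfl⟩
    exact ⟨m _ h1, m _ h2, fun i j hi hij => h3 i j hi (ps_inj L hij)⟩
  · rintro p - q - h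
    simp only [Prod.mk.injEq] at h
    exact Prod.ext (pos_inj L n h.1) (pos_inj L n h.2)

lemma pairs_le (L : Lattice) (n : ℕ) :
    {p : (Fin (n + 1) → ℂ) × (Fin (n + 1) → ℂ) | IsSAW L n p.1 ∧ IsSAW L n p.2 ∧
      ∀ i j, i ≠ 0 → p.1 i ≠ p.2 j}.ncard ≤ {w | IsSAW L n w}.ncard ^ 2 := by
  rw [sq, ← Set.ncard_prod]
  exact Set.ncard_le_ncard (fun _ hp => ⟨hp.1, hp.2.1⟩) ((fin_saw L n).prod (fin_saw L n))

/-- **Theorem.** On the square, the triangular and the hexagonal lattice the probability `P_n` that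
two independent uniform `n`-step self-avoiding walks from the origin are disjoint (except for their
common starting point) satisfies `exp(-K (log n)^9) ≤ P_n ≤ 1` for all `n ≥ 2`. -/
theorem result : ∀ L : Lattice, ∃ K : ℝ, ∀ n : ℕ, 2 ≤ n →
    Real.exp (-(K * Real.log n ^ 9)) ≤ P L n ∧ P L n ≤ 1 := by
  intro L
  obtain ⟨μ, K, hμ, h⟩ := count L
  refine ⟨2 * K, fun n hn => ?_⟩
  obtain ⟨h1, h2⟩ := h n hn
  obtain ⟨h3, -⟩ := h (2 * n) (by omega)
  rw [← ncard_saw] at h1 h2
  have hpos : (0 : ℝ) < {w | IsSAW L n w}.ncard := lt_of_lt_of_le (pow_pos hμ n) h1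
  constructor
  · have h4 : ((walks (Ad L) (2 * n)).ncard : ℝ) ≤
        {p : (Fin (n + 1) → ℂ) × (Fin (n + 1) → ℂ) | IsSAW L n p.1 ∧ IsSAW L n p.2 ∧
          ∀ i j, i ≠ 0 → p.1 i ≠ p.2 j}.ncard := by
      exact_mod_cast (two_mul_le L n).trans (DP_le L n)
    unfold P
    rw [le_div_iff₀ (by positivity)]
    calc Real.exp (-(2 * K * Real.log n ^ 9)) * ({w | IsSAW L n w}.ncard : ℝ) ^ 2
        ≤ Real.exp (-(2 * K * Real.log n ^ 9)) *
          (μ ^ n * Real.exp (K * Real.log n ^ 9)) ^ 2 := by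
          gcongr
      _ = μ ^ (2 * n) := by
          rw [mul_pow, ← Real.exp_nat_mul, ← pow_mul, mul_comm n 2]
          rw [mul_left_comm, ← Real.exp_add]
          have : -(2 * K * Real.log n ^ 9) + ((2 : ℕ) : ℝ) * (K * Real.log n ^ 9) = 0 := by
            push_cast; ring
          rw [this, Real.exp_zero, mul_one]
      _ ≤ _ := h3
      _ ≤ _ := h4
  · unfold P
    rw [div_le_one (by positivity)]
    exact_mod_cast pairs_le L n

end Pool.Agent.Results.MP_8c6f77_pr.ThreeLatticesDisjoint
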